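import Mathlib

/-!
The class of monotonically Sokolov spaces is not closed under continuous images: the one-point
Lindelöfication of a discrete space of size continuum maps onto a separable space of uncountable
network weight.
-/

namespace Pool.Agent.Results.MP_a45b15_gt.ImageNotSokolov

open Set Topology Filter

universe u

/-- `𝓜` is an external network for `A` in the space `X`. -/
def ExternalNetwork {X : Type u} [TopologicalSpace X] (𝓜 : Set (Set X)) (A : Set X) : Prop :=
  ∀ a ∈ A, ∀ U : Set X, IsOpen U → a ∈ U → ∃ N ∈ 𝓜, a ∈ N ∧ N ⊆ U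

/-- `𝓕` is a countable family of closed subsets of `X`. -/
def CountableClosed {X : Type u} [TopologicalSpace X] (𝓕 : Set (Set X)) : Prop :=
  𝓕.Countable ∧ ∀ F ∈ 𝓕, IsClosed F

/-- Monotonically Sokolov, with the assignment of the networks only required to be monotone. -/
def MonotonicallySokolov (X : Type u) [TopologicalSpace X] : Prop :=
  ∃ (r : Set (Set X) → X → X) (N : Set (Set X) → Set (Set X)),
    (∀ 𝓕, CountableClosed 𝓕 → Continuous (r 𝓕) ∧ (∀ x, r 𝓕 (r 𝓕 x) = r 𝓕 x) ∧
      (N 𝓕).Countable ∧ ExternalNetwork (N 𝓕) (Set.range (r 𝓕)) ∧ ∀ F ∈ 𝓕, r 𝓕 '' F ⊆ F) ∧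
    ∀ 𝓕 𝓖, CountableClosed 𝓕 → CountableClosed 𝓖 → 𝓕 ⊆ 𝓖 → N 𝓕 ⊆ N 𝓖

/-- Monotonically Sokolov, with the assignment of the networks required to be `ω`-monotone
(monotone, and commuting with the unions of increasing sequences). -/
def OmegaMonotonicallySokolov (X : Type u) [TopologicalSpace X] : Prop :=
  ∃ (r : Set (Set X) → X → X) (N : Set (Set X) → Set (Set X)),
    (∀ 𝓕, CountableClosed 𝓕 → Continuous (r 𝓕) ∧ (∀ x, r 𝓕 (r 𝓕 x) = r 𝓕 x) ∧
      (N 𝓕).Countable ∧ ExternalNetwork (N 𝓕) (Set.range (r 𝓕)) ∧ ∀ F ∈ 𝓕, r 𝓕 '' F ⊆ F) ∧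
    (∀ 𝓕 𝓖, CountableClosed 𝓕 → CountableClosed 𝓖 → 𝓕 ⊆ 𝓖 → N 𝓕 ⊆ N 𝓖) ∧
    ∀ 𝓕 : ℕ → Set (Set X), (∀ n, CountableClosed (𝓕 n)) → Monotone 𝓕 →
      N (⋃ n, 𝓕 n) = ⋃ n, N (𝓕 n)

lemma OmegaMonotonicallySokolov.mono {X : Type u} [TopologicalSpace X]
    (h : OmegaMonotonicallySokolov X) : MonotonicallySokolov X := by
  obtain ⟨r, N, h1, h2, -⟩ := h
  exact ⟨r, N, h1, h2⟩

/-- The one-point Lindelöfication of a discrete set `Γ`: the point `none` is the point at
infinity. -/
def Lind (Γ : Type u) : Type u := Option Γ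

instance (Γ : Type u) : TopologicalSpace (Lind Γ) where
  IsOpen U := (none : Option Γ) ∈ U → Uᶜ.Countable
  isOpen_univ := fun _ => by simp
  isOpen_inter := by
    intro U V hU hV h
    rw [Set.compl_inter]
    exact (hU h.1).union (hV h.2)
  isOpen_sUnion := by
    intro S hS h
    obtain ⟨U, hU, hn⟩ := h
    exact (hS U hU hn).mono (Set.compl_subset_compl.2 (Set.subset_sUnion_of_mem hU))

lemma isOpen_iff {Γ : Type u} {U : Set (Lind Γ)} :
    IsOpen U ↔ ((none : Option Γ) ∈ U → Uᶜ.Countable) := Iff.rfl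

lemma isOpen_of_notMem {Γ : Type u} {U : Set (Lind Γ)} (h : (none : Option Γ) ∉ U) : IsOpen U :=
  fun h' => absurd h' h

lemma isClosed_countable_of {Γ : Type u} {U : Set (Lind Γ)} (h : U.Countable) :
    IsClosed U := by
  rw [← isOpen_compl_iff, isOpen_iff, compl_compl]
  exact fun _ => h

instance (Γ : Type u) : T35Space (Lind Γ) := by
  classical
  have h1 : T1Space (Lind Γ) := ⟨fun x => isClosed_countable_of (Set.countable_singleton x)⟩
  have h2 : CompletelyRegularSpace (Lind Γ) := by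
    refine ⟨fun x K hK hx => ?_⟩
    -- a clopen set containing `K` and missing `x`
    obtain ⟨V, hV, hKV, hxV⟩ : ∃ V : Set (Lind Γ), IsClopen V ∧ K ⊆ V ∧ x ∉ V := by
      by_cases hxn : x = (none : Option Γ)
      · have hc : K.Countable := by
          have := isOpen_iff.1 hK.isOpen_compl (by rw [← hxn]; exact hx)
          rwa [compl_compl] at this
        exact ⟨K, ⟨hK, isOpen_of_notMem (by rw [← hxn]; exact hx)⟩, Subset.rfl, hx⟩
      · refine ⟨{x}ᶜ, ⟨?_, (isClosed_singleton).isOpen_compl⟩, ?_, by simp⟩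
        · rw [isClosed_compl_iff]
          exact isOpen_of_notMem fun h => hxn h.symm
        · intro y hy hyx
          exact hx (hyx ▸ hy)
    refine ⟨V.indicator 1, ?_, ?_, ?_⟩
    · exact (IsClopen.continuous_indicator hV continuous_const)
    · simp [hxV]
    · intro y hy
      simp [hKV hy]
  exact { }

/-- The union of the members of `𝓕` missing the point at infinity. -/
def core {Γ : Type u} (𝓕 : Set (Set (Lind Γ))) : Set (Lind Γ) :=
  {x | ∃ F ∈ 𝓕, (none : Option Γ) ∉ F ∧ x ∈ F}

lemma none_notMem_core {Γ : Type u} (𝓕 : Set (Set (Lind Γ))) : (none : Option Γ) ∉ core 𝓕 := by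
  rintro ⟨F, -, h1, h2⟩
  exact h1 h2

lemma countable_core {Γ : Type u} {𝓕 : Set (Set (Lind Γ))} (h : CountableClosed 𝓕) :
    (core 𝓕).Countable := by
  have h1 : core 𝓕 = ⋃ F ∈ {F ∈ 𝓕 | (none : Option Γ) ∉ F}, F := by
    ext x
    simp [core, and_assoc]
  rw [h1]
  refine (h.1.mono (Set.sep_subset _ _)).biUnion ?_
  rintro F ⟨hF, hn⟩
  have := isOpen_iff.1 (h.2 F hF).isOpen_compl hn
  rwa [compl_compl] at this

open Classical in
theorem omegaSokolov_lind (Γ : Type u) : OmegaMonotonicallySokolov (Lind Γ) := by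
  refine ⟨fun 𝓕 x => if x ∈ core 𝓕 then x else (none : Option Γ),
    fun 𝓕 => insert {(none : Option Γ)} ((fun a : Lind Γ => ({a} : Set (Lind Γ))) '' core 𝓕),
    ?_, ?_, ?_⟩
  · intro 𝓕 h𝓕
    refine ⟨?_, ?_, ?_, ?_, ?_⟩
    · refine ⟨fun U hU => ?_⟩
      rw [isOpen_iff]
      intro hn
      have hnU : (none : Option Γ) ∈ U := by
        have : (if (none : Option Γ) ∈ core 𝓕 then (none : Option Γ) else none) ∈ U := hn
        simpa using this
      refine (countable_core h𝓕).mono ?_
      intro x hx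
      by_contra hxc
      apply hx
      show (if x ∈ core 𝓕 then x else (none : Option Γ)) ∈ U
      rw [if_neg hxc]
      exact hnU
    · intro x
      by_cases hx : x ∈ core 𝓕
      · simp [hx]
      · simp [hx]
    · exact ((countable_core h𝓕).image _).insert _
    · rintro _ ⟨x, rfl⟩ U hU hxU
      by_cases hx : x ∈ core 𝓕
      · simp only [if_pos hx] at hxU ⊢
        exact ⟨{x}, Or.inr ⟨x, hx, rfl⟩, rfl, singleton_subset_iff.2 hxU⟩
      · simp only [if_neg hx] at hxU ⊢
        exact ⟨{(none : Option Γ)}, Or.inl rfl, rfl, singleton_subset_iff.2 hxU⟩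
    · rintro F hF _ ⟨x, hx, rfl⟩
      by_cases hxc : x ∈ core 𝓕
      · simpa only [if_pos hxc] using hx
      · simp only [if_neg hxc]
        by_contra hn
        exact hxc ⟨F, hF, hn, hx⟩
  · intro 𝓕 𝓖 _ _ h
    refine Set.insert_subset_insert (Set.image_mono ?_)
    rintro x ⟨F, hF, h1, h2⟩
    exact ⟨F, h hF, h1, h2⟩
  · intro 𝓕 _ _
    have h1 : core (⋃ n, 𝓕 n) = ⋃ n, core (𝓕 n) := by
      ext x
      constructor
      · rintro ⟨F, hF, h1, h2⟩
        obtain ⟨n, hn⟩ := Set.mem_iUnion.1 hF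
        exact Set.mem_iUnion.2 ⟨n, F, hn, h1, h2⟩
      · intro hx
        obtain ⟨n, F, hF, h1, h2⟩ := Set.mem_iUnion.1 hx
        exact ⟨F, Set.mem_iUnion.2 ⟨n, hF⟩, h1, h2⟩
    show insert {(none : Option Γ)} ((fun a : Lind Γ => ({a} : Set (Lind Γ))) '' core (⋃ n, 𝓕 n)) =
      ⋃ n, insert {(none : Option Γ)} ((fun a : Lind Γ => ({a} : Set (Lind Γ))) '' core (𝓕 n))
    rw [h1, Set.image_iUnion]
    ext S
    simp only [Set.mem_insert_iff, Set.mem_iUnion]
    constructor
    · rintro (h | ⟨n, h⟩)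
      · exact ⟨0, Or.inl h⟩
      · exact ⟨n, Or.inr h⟩
    · rintro ⟨n, h | h⟩
      · exact Or.inl h
      · exact Or.inr ⟨n, h⟩

/-- The map onto the separable space: `(a, b) ↦` the indicator of the interval `(a, b)`,
`x ↦` the indicator of `{x}`, and the point at infinity goes to the zero function. -/
noncomputable def g : Lind ((ℚ × ℚ) ⊕ ℝ) → (ℝ → ℝ)
  | none => 0
  | some (Sum.inl ab) => Set.indicator (Set.Ioo (ab.1 : ℝ) ab.2) 1
  | some (Sum.inr x) => Set.indicator {x} 1

/-- The target space. -/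
abbrev Y : Type := Set.range g

/-- The map of the one-point Lindelöfication onto `Y`. -/
noncomputable def f : Lind ((ℚ × ℚ) ⊕ ℝ) → Y := Set.rangeFactorization g

lemma continuous_g : Continuous g := by
  refine continuous_pi fun x => ⟨fun U hU => ?_⟩
  rw [isOpen_iff]
  intro hn
  have h0 : (0 : ℝ) ∈ U := hn
  have h1 : (Set.range fun ab : ℚ × ℚ => (some (Sum.inl ab) : Lind ((ℚ × ℚ) ⊕ ℝ))).Countable :=
    Set.countable_range _
  refine (h1.insert (some (Sum.inr x))).mono ?_
  rintro (_ | ab | z) hp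
  · exact absurd h0 hp
  · exact Or.inr ⟨ab, rfl⟩
  · left
    by_contra hne
    have hzx : x ≠ z := by
      rintro rfl
      exact hne rfl
    apply hp
    have : g (some (Sum.inr z)) x = 0 := by simp [g, hzx]
    show g (some (Sum.inr z)) x ∈ U
    rw [this]
    exact h0

lemma continuous_f : Continuous f := continuous_g.subtype_mk _

lemma surjective_f : Function.Surjective f := Set.rangeFactorization_surjective

/-- The countable dense set. -/
def D : Set Y := Set.range fun ab : ℚ × ℚ => f (some (Sum.inl ab))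

lemma dense_D : Dense D := by
  classical
  -- every indicator of a point is a limit of indicators of rational intervals
  intro y
  obtain ⟨p, rfl⟩ := surjective_f y
  have hD : ∀ h : ℝ → ℝ, ∀ hh : h ∈ Set.range g,
      (∀ F : Finset ℝ, ∃ ab : ℚ × ℚ, ∀ i ∈ F, g (some (Sum.inl ab)) i = h i) →
      (⟨h, hh⟩ : Y) ∈ closure D := by
    intro h hh hF
    rw [mem_closure_iff_nhds]
    intro t ht
    rw [mem_nhds_subtype] at ht
    obtain ⟨u, hu, hut⟩ := ht
    rw [nhds_pi, Filter.mem_pi] at hu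
    obtain ⟨I, hI, s, hs, hsu⟩ := hu
    obtain ⟨ab, hab⟩ := hF hI.toFinset
    refine ⟨f (some (Sum.inl ab)), hut (hsu fun i hi => ?_), ⟨ab, rfl⟩⟩
    show g (some (Sum.inl ab)) i ∈ s i
    rw [hab i (hI.mem_toFinset.2 hi)]
    exact mem_of_mem_nhds (hs i)
  rcases p with _ | ab | x
  · refine hD _ _ fun F => ⟨(0, 0), fun i _ => ?_⟩
    simp [g]
  · exact subset_closure ⟨ab, rfl⟩
  · refine hD _ _ fun F => ?_
    -- a rational interval around `x` missing the rest of `F`
    have h1 : IsOpen (((F.erase x : Finset ℝ) : Set ℝ)ᶜ) :=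
      (F.erase x).finite_toSet.isClosed.isOpen_compl
    have h2 : x ∈ (((F.erase x : Finset ℝ) : Set ℝ)ᶜ) := by simp
    obtain ⟨ε, hε, hball⟩ := Metric.isOpen_iff.1 h1 x h2
    obtain ⟨a, ha1, ha2⟩ := exists_rat_btwn (show x - ε < x by linarith)
    obtain ⟨b, hb1, hb2⟩ := exists_rat_btwn (show x < x + ε by linarith)
    refine ⟨(a, b), fun i hi => ?_⟩
    by_cases hix : i = x
    · subst hix
      simp [g, ha2, hb1]
    · have h3 : i ∉ Set.Ioo (a : ℝ) b := by
        intro h4
        have : i ∈ Metric.ball x ε := by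
          rw [Metric.mem_ball, Real.dist_eq, abs_lt]
          constructor <;> linarith [h4.1, h4.2]
        exact hball this (by simp [hix, hi])
      simp only [g]
      rw [Set.indicator_of_notMem h3, Set.indicator_of_notMem (by simpa using hix)]

lemma countable_D : D.Countable := Set.countable_range _

theorem not_sokolov_Y : ¬ MonotonicallySokolov Y := by
  rintro ⟨r, N, h, -⟩
  have h𝓕 : CountableClosed ((fun d : Y => ({d} : Set Y)) '' D) := by
    refine ⟨countable_D.image _, ?_⟩
    rintro _ ⟨d, -, rfl⟩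
    exact isClosed_singleton
  obtain ⟨hr, -, hN, hnet, hF⟩ := h _ h𝓕
  have hfix : ∀ d ∈ D, r ((fun d : Y => ({d} : Set Y)) '' D) d = id d := by
    intro d hd
    have := hF {d} ⟨d, hd, rfl⟩
    exact this ⟨d, rfl, rfl⟩
  have hid : r ((fun d : Y => ({d} : Set Y)) '' D) = id :=
    Continuous.ext_on dense_D hr continuous_id hfix
  rw [hid, Set.range_id] at hnet
  -- the indicators of points form an uncountable relatively discrete set
  let U : ℝ → Set Y := fun x => {y | (1 / 2 : ℝ) < y.1 x}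
  have hU : ∀ x, IsOpen (U x) := fun x =>
    isOpen_lt continuous_const ((continuous_apply x).comp continuous_subtype_val)
  have hmem : ∀ x z, f (some (Sum.inr z)) ∈ U x ↔ x = z := by
    intro x z
    show (1 / 2 : ℝ) < Set.indicator {z} 1 x ↔ x = z
    by_cases hxz : x = z
    · subst hxz
      simp
      norm_num
    · simp [hxz]
  have hex : ∀ x : ℝ, ∃ M ∈ N ((fun d : Y => ({d} : Set Y)) '' D),
      f (some (Sum.inr x)) ∈ M ∧ M ⊆ U x := fun x =>
    hnet _ (Set.mem_univ _) _ (hU x) ((hmem x x).2 rfl)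
  choose M hM hM1 hM2 using hex
  have hinj : Function.Injective fun x : ℝ =>
      (⟨M x, hM x⟩ : N ((fun d : Y => ({d} : Set Y)) '' D)) := by
    intro x z hxz
    have h1 : M x = M z := congrArg Subtype.val hxz
    have h2 : f (some (Sum.inr x)) ∈ U z := hM2 z (h1 ▸ hM1 x)
    exact ((hmem z x).1 h2).symm
  have : Countable (N ((fun d : Y => ({d} : Set Y)) '' D)) := hN.to_subtype
  exact Cardinal.not_countable_real (Set.countable_univ_iff.2 hinj.countable)

/-- **The class of monotonically Sokolov spaces is not closed under continuous images**, for both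
versions of the definition: there are Tychonoff spaces `X`, `Y` and a continuous surjection
`X → Y` such that `X` is monotonically Sokolov (even with an `ω`-monotone assignment of networks)
and `Y` is not monotonically Sokolov (not even with a merely monotone assignment). -/
theorem result : ∃ (X Y : Type) (_ : TopologicalSpace X) (_ : TopologicalSpace Y),
    T35Space X ∧ T35Space Y ∧ (∃ f : X → Y, Continuous f ∧ Function.Surjective f) ∧
    OmegaMonotonicallySokolov X ∧ MonotonicallySokolov X ∧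
    ¬ MonotonicallySokolov Y ∧ ¬ OmegaMonotonicallySokolov Y :=
  ⟨Lind ((ℚ × ℚ) ⊕ ℝ), Y, inferInstance, inferInstance, inferInstance, inferInstance,
    ⟨f, continuous_f, surjective_f⟩, omegaSokolov_lind _, (omegaSokolov_lind _).mono,
    not_sokolov_Y, fun h => not_sokolov_Y h.mono⟩

end Pool.Agent.Results.MP_a45b15_gt.ImageNotSokolov
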